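import Pool.Agent.H23.BG.TargetsP

/-! Row P_PR of the board brg_modules: primes in a dyadic interval which do not divide `N`. -/

set_option autoImplicit false

open Finset Filter Asymptotics

namespace Pool.Agent.H64.BG.P_PR

/-- number of prime factors -/
theorem card_pf (N : ℕ) (hN : 1 ≤ N) :
    (N.primeFactors.card : ℝ) * Real.log 2 ≤ Real.log N := by
  have h1 : 2 ^ N.primeFactors.card ≤ ∏ p ∈ N.primeFactors, p := by
    rw [← Finset.prod_const]
    exact Finset.prod_le_prod' fun p hp => (Nat.prime_of_mem_primeFactors hp).two_le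
  have h2 : 2 ^ N.primeFactors.card ≤ N :=
    h1.trans (Nat.le_of_dvd (by omega) (Nat.prod_primeFactors_dvd N))
  have h3 : ((2 : ℝ)) ^ N.primeFactors.card ≤ N := by exact_mod_cast h2
  have h4 := Real.log_le_log (by positivity) h3
  rwa [Real.log_pow] at h4

/-- the final inequality -/
theorem ev (δ ε : ℝ) (hδ : 0 < δ) (hε : 0 < ε) : ∀ᶠ A : ℝ in atTop, 2 ≤ A ∧
    Real.log A * A ^ (1 - ε) + Real.log A ^ 2 / (δ * Real.log 2) + Real.log 2 +
      Real.log (A + 2) + 2 * √A * Real.log A ≤ A / 4 := by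
  have hl2 : 0 < Real.log 2 := Real.log_pos (by norm_num)
  have h1 : ∀ᶠ A : ℝ in atTop, ‖Real.log A‖ ≤ (1 / 20) * ‖A ^ ε‖ :=
    (isLittleO_log_rpow_atTop hε).def (by norm_num)
  have h2 : ∀ᶠ A : ℝ in atTop, ‖Real.log A‖ ≤
      √(δ * Real.log 2 / 20) * ‖A ^ (1 / 2 : ℝ)‖ :=
    (isLittleO_log_rpow_atTop (by norm_num)).def (by positivity)
  have h4 : ∀ᶠ A : ℝ in atTop, ‖Real.log A‖ ≤ (1 / 40) * ‖A ^ (1 : ℝ)‖ :=
    (isLittleO_log_rpow_atTop (by norm_num)).def (by norm_num)
  have h5 : ∀ᶠ A : ℝ in atTop, ‖Real.log A‖ ≤ (1 / 40) * ‖A ^ (1 / 2 : ℝ)‖ :=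
    (isLittleO_log_rpow_atTop (by norm_num)).def (by norm_num)
  filter_upwards [h1, h2, h4, h5, eventually_ge_atTop 2,
    eventually_ge_atTop (20 * Real.log 2)] with A h1 h2 h4 h5 hA2 hA3
  have hA0 : 0 < A := by linarith
  have hlog : 0 ≤ Real.log A := Real.log_nonneg (by linarith)
  rw [Real.norm_of_nonneg hlog, Real.norm_of_nonneg (by positivity)] at h1 h2 h4 h5
  rw [Real.rpow_one] at h4
  rw [← Real.sqrt_eq_rpow] at h2 h5
  refine ⟨hA2, ?_⟩
  have e1 : Real.log A * A ^ (1 - ε) ≤ A / 20 := by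
    calc Real.log A * A ^ (1 - ε) ≤ (1 / 20 * A ^ ε) * A ^ (1 - ε) := by gcongr
      _ = 1 / 20 * (A ^ ε * A ^ (1 - ε)) := by ring
      _ = A / 20 := by
          rw [← Real.rpow_add hA0, add_sub_cancel, Real.rpow_one]
          ring
  have e2 : Real.log A ^ 2 / (δ * Real.log 2) ≤ A / 20 := by
    rw [div_le_iff₀ (by positivity)]
    calc Real.log A ^ 2 ≤ (√(δ * Real.log 2 / 20) * √A) ^ 2 := by gcongr
      _ = A / 20 * (δ * Real.log 2) := by
          rw [mul_pow, Real.sq_sqrt (by positivity), Real.sq_sqrt hA0.le]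
          ring
  have e4 : Real.log (A + 2) ≤ A / 20 := by
    have h6 : Real.log (A + 2) ≤ Real.log (A ^ 2) :=
      Real.log_le_log (by linarith) (by nlinarith)
    rw [Real.log_pow] at h6
    push_cast at h6
    linarith
  have e5 : 2 * √A * Real.log A ≤ A / 20 := by
    calc 2 * √A * Real.log A ≤ 2 * √A * (1 / 40 * √A) := by gcongr
      _ = √A * √A / 20 := by ring
      _ = A / 20 := by rw [Real.mul_self_sqrt hA0.le]
  linarith

theorem pf_P_PR : Pool.Agent.H23.BG.P_PR := by
  intro δ ε hδ hε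
  obtain ⟨A1, hA1⟩ := eventually_atTop.1 (ev δ ε hδ hε)
  have ht : Tendsto (fun N : ℕ => (N : ℝ) ^ δ) atTop atTop :=
    (tendsto_rpow_atTop hδ).comp tendsto_natCast_atTop_atTop
  obtain ⟨N1, hN1⟩ := eventually_atTop.1 (ht.eventually_ge_atTop A1)
  refine ⟨1, one_pos, max N1 1, fun N hN A hA => ?_⟩
  have hN0 : 1 ≤ N := (le_max_right _ _).trans hN
  obtain ⟨hA2, hmain⟩ := hA1 A ((hN1 N ((le_max_left _ _).trans hN)).trans hA)
  have hA0 : 0 < A := by linarith
  have hl2 : 0 < Real.log 2 := Real.log_pos (by norm_num)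
  have hlA : 0 < Real.log A := Real.log_pos (by linarith)
  have hNr : (1 : ℝ) ≤ N := by exact_mod_cast hN0
  obtain ⟨S, hS⟩ : ∃ S, S = (Ioc 0 ⌊A⌋₊).filter (fun p => p.Prime) := ⟨_, rfl⟩
  obtain ⟨S', hS'⟩ : ∃ S', S' = S.filter (fun p : ℕ => A / 4 < (p : ℝ)) := ⟨_, rfl⟩
  refine ⟨S'.filter (fun p => ¬ p ∣ N), ?_, ?_⟩
  · intro a ha
    rw [hS', hS] at ha
    simp only [Finset.mem_filter, Finset.mem_Ioc] at ha
    refine ⟨ha.1.1.2, ha.1.2, ?_, ?_⟩
    · exact (Nat.le_floor_iff hA0.le).1 ha.1.1.1.2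
    · exact (Nat.Prime.coprime_iff_not_dvd ha.1.1.2).2 ha.2
  · rw [one_mul]
    -- number of primes
    have h1 : Chebyshev.theta A = ∑ p ∈ S, Real.log p := by
      rw [hS]
      rfl
    have h2 : Chebyshev.theta (A / 4) = ∑ p ∈ S.filter (fun p : ℕ => ¬ A / 4 < (p : ℝ)),
        Real.log p := by
      have h3 : S.filter (fun p : ℕ => ¬ A / 4 < (p : ℝ)) =
          (Ioc 0 ⌊A / 4⌋₊).filter (fun p => p.Prime) := by
        ext p
        rw [hS]
        simp only [Finset.mem_filter, Finset.mem_Ioc, not_lt]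
        rw [Nat.le_floor_iff hA0.le, Nat.le_floor_iff (by positivity)]
        constructor
        · rintro ⟨⟨⟨h4, h5⟩, h6⟩, h7⟩
          exact ⟨⟨h4, h7⟩, h6⟩
        · rintro ⟨⟨h4, h5⟩, h6⟩
          exact ⟨⟨⟨h4, by linarith⟩, h6⟩, h5⟩
      rw [h3]
      rfl
    have h3 : ∑ p ∈ S', Real.log p = Chebyshev.theta A - Chebyshev.theta (A / 4) := by
      rw [h1, h2, hS', ← Finset.sum_filter_add_sum_filter_not S (fun p : ℕ => A / 4 < (p : ℝ))]
      ring
    have h4 : ∑ p ∈ S', Real.log p ≤ (S'.card : ℝ) * Real.log A := by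
      rw [← nsmul_eq_mul]
      apply Finset.sum_le_card_nsmul
      intro p hp
      rw [hS', hS] at hp
      simp only [Finset.mem_filter, Finset.mem_Ioc] at hp
      apply Real.log_le_log
      · exact_mod_cast hp.1.1.1
      · exact (Nat.le_floor_iff hA0.le).1 hp.1.1.2
    have h5 := Chebyshev.theta_ge' (x := A) (by linarith)
    have h6 := Chebyshev.theta_le_log4_mul_x (x := A / 4) (by positivity)
    have h7 : Real.log 4 = 2 * Real.log 2 := by
      rw [show (4 : ℝ) = 2 ^ 2 by norm_num, Real.log_pow]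
      push_cast
      ring
    rw [h7] at h6
    have hl2' : (1 / 2 : ℝ) ≤ Real.log 2 := by
      have := Real.log_two_gt_d9
      linarith
    -- the primes which divide N
    have h8 : (S'.card : ℝ) ≤ (S'.filter (fun p => ¬ p ∣ N)).card + N.primeFactors.card := by
      have h9 : S'.card = (S'.filter (fun p => p ∣ N)).card +
          (S'.filter (fun p => ¬ p ∣ N)).card := by
        rw [Finset.card_filter_add_card_filter_not]
      have h10 : (S'.filter (fun p => p ∣ N)).card ≤ N.primeFactors.card := by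
        apply Finset.card_le_card
        intro p hp
        rw [hS', hS] at hp
        simp only [Finset.mem_filter, Finset.mem_Ioc] at hp
        exact Nat.mem_primeFactors.2 ⟨hp.1.1.2, hp.2, by omega⟩
      have h11 : S'.card ≤ (S'.filter (fun p => ¬ p ∣ N)).card + N.primeFactors.card := by
        omega
      exact_mod_cast h11
    have h9 := card_pf N hN0
    have h10 : δ * Real.log N ≤ Real.log A := by
      rw [← Real.log_rpow (by linarith)]
      exact Real.log_le_log (by positivity) hA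
    have h11 : (N.primeFactors.card : ℝ) * Real.log A ≤ Real.log A ^ 2 / (δ * Real.log 2) := by
      rw [le_div_iff₀ (by positivity)]
      have h12 : δ * ((N.primeFactors.card : ℝ) * Real.log 2) ≤ Real.log A :=
        (mul_le_mul_of_nonneg_left h9 hδ.le).trans h10
      calc (N.primeFactors.card : ℝ) * Real.log A * (δ * Real.log 2)
          = (δ * ((N.primeFactors.card : ℝ) * Real.log 2)) * Real.log A := by ring
        _ ≤ Real.log A * Real.log A := by gcongr
        _ = Real.log A ^ 2 := by ring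
    have h12 := mul_le_mul_of_nonneg_right h8 hlA.le
    have h13 : Real.log A * A ^ (1 - ε) ≤
        ((S'.filter (fun p => ¬ p ∣ N)).card : ℝ) * Real.log A := by
      nlinarith
    rw [mul_comm] at h13
    exact le_of_mul_le_mul_right h13 hlA

end Pool.Agent.H64.BG.P_PR
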